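import Mathlib

/-!
# The convex hull of a compact set in finite dimension is compact
-/

set_option autoImplicit false

namespace Pool.Agent.Y338.SJ

open Finset

/-- every point of the hull is a convex combination of exactly `d + 1` points of the set -/
theorem hull_mem_fin {W : Type*} [NormedAddCommGroup W] [NormedSpace ℝ W]
    [FiniteDimensional ℝ W] {S : Set W} {x : W} (hx : x ∈ convexHull ℝ S) :
    ∃ (w : Fin (Module.finrank ℝ W + 1) → ℝ) (z : Fin (Module.finrank ℝ W + 1) → W),
      (∀ i, 0 ≤ w i) ∧ ∑ i, w i = 1 ∧ (∀ i, z i ∈ S) ∧ ∑ i, w i • z i = x := by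
  classical
  have hne : S.Nonempty := by
    rw [← convexHull_nonempty_iff (𝕜 := ℝ)]
    exact ⟨x, hx⟩
  obtain ⟨s₀, hs₀⟩ := hne
  obtain ⟨ι, _, z, w, hz, haff, hw, hw1, hwx⟩ := eq_pos_convex_span_of_mem_convexHull hx
  have hcard : Fintype.card ι ≤ Module.finrank ℝ W + 1 := by
    have h1 := haff.card_le_finrank_succ
    have h2 : Module.finrank ℝ (vectorSpan ℝ (Set.range z)) ≤ Module.finrank ℝ W :=
      Submodule.finrank_le _
    omega
  have hcard' : Fintype.card ι ≤ Fintype.card (Fin (Module.finrank ℝ W + 1)) := by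
    simpa using hcard
  obtain ⟨e⟩ := Function.Embedding.nonempty_of_card_le hcard'
  have hin := e.injective
  refine ⟨Function.extend e w 0, Function.extend e z (fun _ => s₀), ?_, ?_, ?_, ?_⟩
  · intro j
    by_cases h : ∃ i, e i = j
    · obtain ⟨i, rfl⟩ := h
      rw [hin.extend_apply]
      exact (hw i).le
    · rw [Function.extend_apply' _ _ _ h]
      exact le_rfl
  · rw [← hw1]
    symm
    refine Fintype.sum_of_injective e hin _ _ ?_ ?_
    · intro j hj
      have h : ¬ ∃ i, e i = j := fun ⟨i, hi⟩ => hj ⟨i, hi⟩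
      rw [Function.extend_apply' _ _ _ h]
      rfl
    · intro i
      rw [hin.extend_apply]
  · intro j
    by_cases h : ∃ i, e i = j
    · obtain ⟨i, rfl⟩ := h
      rw [hin.extend_apply]
      exact hz ⟨i, rfl⟩
    · rw [Function.extend_apply' _ _ _ h]
      exact hs₀
  · rw [← hwx]
    symm
    refine Fintype.sum_of_injective e hin _ _ ?_ ?_
    · intro j hj
      have h : ¬ ∃ i, e i = j := fun ⟨i, hi⟩ => hj ⟨i, hi⟩
      rw [Function.extend_apply' _ _ _ h]
      simp
    · intro i
      rw [hin.extend_apply, hin.extend_apply]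

/-- the convex hull of a compact set is compact -/
theorem hull_compact {W : Type*} [NormedAddCommGroup W] [NormedSpace ℝ W]
    [FiniteDimensional ℝ W] {S : Set W} (hS : IsCompact S) : IsCompact (convexHull ℝ S) := by
  set K : Set ((Fin (Module.finrank ℝ W + 1) → ℝ) × (Fin (Module.finrank ℝ W + 1) → W)) :=
    stdSimplex ℝ (Fin (Module.finrank ℝ W + 1)) ×ˢ Set.pi Set.univ (fun _ => S) with hK
  have hKc : IsCompact K :=
    (isCompact_stdSimplex ℝ _).prod (isCompact_univ_pi (fun _ => hS))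
  have hF : Continuous (fun p : (Fin (Module.finrank ℝ W + 1) → ℝ) ×
      (Fin (Module.finrank ℝ W + 1) → W) => ∑ i, p.1 i • p.2 i) := by
    fun_prop
  have himg : convexHull ℝ S = (fun p : (Fin (Module.finrank ℝ W + 1) → ℝ) ×
      (Fin (Module.finrank ℝ W + 1) → W) => ∑ i, p.1 i • p.2 i) '' K := by
    apply Set.Subset.antisymm
    · intro x hx
      obtain ⟨w, z, hw, hw1, hz, hwx⟩ := hull_mem_fin hx
      exact ⟨(w, z), ⟨⟨hw, hw1⟩, fun i _ => hz i⟩, hwx⟩
    · rintro x ⟨⟨w, z⟩, ⟨⟨hw, hw1⟩, hz⟩, rfl⟩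
      exact (convex_convexHull ℝ S).sum_mem (fun i _ => hw i) hw1
        (fun i _ => subset_convexHull ℝ S (hz i (Set.mem_univ i)))
  rw [himg]
  exact hKc.image hF

/-- zero is in the hull as soon as no functional is negative on the set -/
theorem zero_mem_hull {W : Type*} [NormedAddCommGroup W] [NormedSpace ℝ W]
    [FiniteDimensional ℝ W] {S : Set W} (hS : IsCompact S)
    (h : ∀ f : W →L[ℝ] ℝ, ∃ x ∈ S, 0 ≤ f x) : (0 : W) ∈ convexHull ℝ S := by
  by_contra h0
  obtain ⟨f, u, hu1, hu2⟩ := geometric_hahn_banach_closed_point (convex_convexHull ℝ S)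
    (hull_compact hS).isClosed h0
  rw [map_zero] at hu2
  obtain ⟨x, hx, hfx⟩ := h f
  have := hu1 x (subset_convexHull ℝ S hx)
  linarith

end Pool.Agent.Y338.SJ
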