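import Pool.Agent.Y52.SJ.Stm
import Pool.Agent.Y338.SJ.HullAux

/-!
# Project SJ (helper52): zero is in the convex hull of a compact set
-/

set_option autoImplicit false

namespace Pool.Agent.Y338.SJ.Hull

theorem main : Pool.Agent.Y52.SJ.S_HULL := by
  intro W _ _ _ S hS h
  exact Pool.Agent.Y338.SJ.zero_mem_hull hS h

end Pool.Agent.Y338.SJ.Hull
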